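import Pool.Agent.W709.VC.GeoDefs

/-! GEO-TET (helper120): the supporting hyperplane inequality -/

set_option autoImplicit false

namespace Pool.Agent.W120.VC
open Real Set Filter MeasureTheory Pool.Agent.W709.VC
open scoped Topology

theorem lob_deriv {x : ℝ} (h0 : 0 < x) (h1 : x < π) :
    HasDerivAt GapVol.lob (-Real.log (2 * Real.sin x)) x := by
  have hs : 0 < Real.sin x := Real.sin_pos_of_pos_of_lt_pi h0 h1
  have e : GapVol.lob = fun x => ∫ t in (0:ℝ)..x, GapVol.g t := by
    ext x; exact GapVol.lob_eq x
  have hcont : ContinuousAt GapVol.g x := by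
    unfold GapVol.g
    refine (ContinuousAt.log ?_ ?_).neg
    · fun_prop
    · positivity
  have hmeas : StronglyMeasurableAtFilter GapVol.g (𝓝 x) volume := by
    have hm : Measurable GapVol.g := by
      unfold GapVol.g
      fun_prop
    exact hm.stronglyMeasurable.stronglyMeasurableAtFilter
  rw [e]
  exact intervalIntegral.integral_hasDerivAt_right (GapVol.g_int 0 x) hmeas hcont

theorem form_nonneg (a b X Y Z : ℝ) (hsum : X + Y + Z = π) :
    0 ≤ a ^ 2 * (cos X * sin Y * sin Z) + b ^ 2 * (cos Y * sin X * sin Z)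
      + (a + b) ^ 2 * (cos Z * sin X * sin Y) := by
  have hZ : Z = π - (X + Y) := by linarith
  have e : a ^ 2 * (cos X * sin Y * sin Z) + b ^ 2 * (cos Y * sin X * sin Z)
      + (a + b) ^ 2 * (cos Z * sin X * sin Y)
      = (a * sin Y + cos Z * (b * sin X)) ^ 2 + (1 - cos Z ^ 2) * (b * sin X) ^ 2 := by
    have hX := sin_sq_add_cos_sq X
    have hY := sin_sq_add_cos_sq Y
    rw [hZ, sin_pi_sub, cos_pi_sub, sin_add, cos_add]
    linear_combination (a ^ 2 * sin Y ^ 2) * hX + (b ^ 2 * sin X ^ 2) * hY
  rw [e]
  have := cos_sq_le_one Z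
  have h1 : 0 ≤ 1 - cos Z ^ 2 := by linarith
  positivity

theorem log_sin_deriv {x a t : ℝ} (h0 : 0 < x + t * a) (h1 : x + t * a < π) :
    HasDerivAt (fun t => a * Real.log (2 * sin (x + t * a)))
      (a ^ 2 * (cos (x + t * a) / sin (x + t * a))) t := by
  have hs : 0 < Real.sin (x + t * a) := Real.sin_pos_of_pos_of_lt_pi h0 h1
  have e1 : HasDerivAt (fun t : ℝ => x + t * a) a t := by
    simpa using ((hasDerivAt_id t).mul_const a).const_add x
  have e2 : HasDerivAt (fun t : ℝ => 2 * sin (x + t * a)) (2 * (cos (x + t * a) * a)) t :=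
    (e1.sin).const_mul 2
  have e3 := (e2.log (by positivity)).const_mul a
  refine e3.congr_deriv ?_
  clear e1 e2 e3
  generalize sin (x + t * a) = S at *
  generalize cos (x + t * a) = C at *
  have := hs.ne'
  field_simp

theorem tet : S_TET := by
  intro x y z x' y' z' hx hy hz hsum hx' hy' hz' hsum'
  set a := x' - x with ha
  set b := y' - y with hb
  set c := z' - z with hc
  have habc : a + b + c = 0 := by rw [ha, hb, hc]; linarith
  have hpos : ∀ t ∈ Ico (0:ℝ) 1, (0 < x + t * a ∧ 0 < y + t * b ∧ 0 < z + t * c) ∧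
      (x + t * a < π ∧ y + t * b < π ∧ z + t * c < π) ∧
      (x + t * a) + (y + t * b) + (z + t * c) = π := by
    intro t ht
    have h1 : 0 < x + t * a := by
      have : x + t * a = (1 - t) * x + t * x' := by rw [ha]; ring
      rw [this]
      have := mul_pos (sub_pos.2 ht.2) hx
      have := mul_nonneg ht.1 hx'
      linarith
    have h2 : 0 < y + t * b := by
      have : y + t * b = (1 - t) * y + t * y' := by rw [hb]; ring
      rw [this]
      have := mul_pos (sub_pos.2 ht.2) hy
      have := mul_nonneg ht.1 hy'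
      linarith
    have h3 : 0 < z + t * c := by
      have : z + t * c = (1 - t) * z + t * z' := by rw [hc]; ring
      rw [this]
      have := mul_pos (sub_pos.2 ht.2) hz
      have := mul_nonneg ht.1 hz'
      linarith
    have h4 : (x + t * a) + (y + t * b) + (z + t * c) = π := by
      have : (x + t * a) + (y + t * b) + (z + t * c) = (x + y + z) + t * (a + b + c) := by ring
      rw [this, habc, hsum]; ring
    exact ⟨⟨h1, h2, h3⟩, ⟨by linarith, by linarith, by linarith⟩, h4⟩
  -- the derivative `f'`
  set h : ℝ → ℝ := fun t => a * Real.log (2 * sin (x + t * a)) + b * Real.log (2 * sin (y + t * b))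
    + c * Real.log (2 * sin (z + t * c)) with hh
  have hderiv : ∀ t ∈ Ico (0:ℝ) 1, HasDerivAt h
      (a ^ 2 * (cos (x + t * a) / sin (x + t * a)) + b ^ 2 * (cos (y + t * b) / sin (y + t * b))
        + c ^ 2 * (cos (z + t * c) / sin (z + t * c))) t := by
    intro t ht
    obtain ⟨⟨p1, p2, p3⟩, ⟨q1, q2, q3⟩, hs⟩ := hpos t ht
    exact ((log_sin_deriv p1 q1).add (log_sin_deriv p2 q2)).add (log_sin_deriv p3 q3)
  have hmono : MonotoneOn h (Ico 0 1) := by
    apply monotoneOn_of_deriv_nonneg (convex_Ico 0 1)
    · exact fun t ht => (hderiv t ht).continuousAt.continuousWithinAt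
    · intro t ht
      rw [interior_Ico] at ht
      exact (hderiv t ⟨ht.1.le, ht.2⟩).differentiableAt.differentiableWithinAt
    · intro t ht
      rw [interior_Ico] at ht
      have ht' : t ∈ Ico (0:ℝ) 1 := ⟨ht.1.le, ht.2⟩
      rw [(hderiv t ht').deriv]
      obtain ⟨⟨p1, p2, p3⟩, ⟨q1, q2, q3⟩, hs⟩ := hpos t ht'
      have s1 := Real.sin_pos_of_pos_of_lt_pi p1 q1
      have s2 := Real.sin_pos_of_pos_of_lt_pi p2 q2
      have s3 := Real.sin_pos_of_pos_of_lt_pi p3 q3
      have hf := form_nonneg a b _ _ _ hs
      have hc2 : c ^ 2 = (a + b) ^ 2 := by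
        have : c = -(a + b) := by linarith
        rw [this]; ring
      have e : a ^ 2 * (cos (x + t * a) / sin (x + t * a))
          + b ^ 2 * (cos (y + t * b) / sin (y + t * b))
          + c ^ 2 * (cos (z + t * c) / sin (z + t * c))
          = (a ^ 2 * (cos (x + t * a) * sin (y + t * b) * sin (z + t * c))
            + b ^ 2 * (cos (y + t * b) * sin (x + t * a) * sin (z + t * c))
            + (a + b) ^ 2 * (cos (z + t * c) * sin (x + t * a) * sin (y + t * b)))
            / (sin (x + t * a) * sin (y + t * b) * sin (z + t * c)) := by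
        rw [hc2]
        clear hf hs
        generalize sin (x + t * a) = S1 at *
        generalize sin (y + t * b) = S2 at *
        generalize sin (z + t * c) = S3 at *
        generalize cos (x + t * a) = C1 at *
        generalize cos (y + t * b) = C2 at *
        generalize cos (z + t * c) = C3 at *
        field_simp
      rw [e]
      exact div_nonneg hf (by positivity)
  -- the function
  set f : ℝ → ℝ := fun t => GapVol.lob (x + t * a) + GapVol.lob (y + t * b)
    + GapVol.lob (z + t * c) + t * h 0 with hf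
  have hlin : ∀ (x a t : ℝ), HasDerivAt (fun t : ℝ => x + t * a) a t := fun x a t => by
    simpa using ((hasDerivAt_id t).mul_const a).const_add x
  have hfderiv : ∀ t ∈ Ico (0:ℝ) 1, HasDerivAt f (-h t + h 0) t := by
    intro t ht
    obtain ⟨⟨p1, p2, p3⟩, ⟨q1, q2, q3⟩, hs⟩ := hpos t ht
    have d1 := (lob_deriv p1 q1).comp t (hlin x a t)
    have d2 := (lob_deriv p2 q2).comp t (hlin y b t)
    have d3 := (lob_deriv p3 q3).comp t (hlin z c t)
    have d4 : HasDerivAt (fun t : ℝ => t * h 0) (h 0) t := by
      simpa using (hasDerivAt_id t).mul_const (h 0)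
    have d5 := ((d1.add d2).add d3).add d4
    refine d5.congr_deriv ?_
    simp only [hh]
    ring
  have hcont : Continuous f := by
    have := GapVol.lob_cont
    simp only [hf]
    fun_prop
  have hanti : AntitoneOn f (Icc 0 1) := by
    apply antitoneOn_of_deriv_nonpos (convex_Icc 0 1) hcont.continuousOn
    · intro t ht
      rw [interior_Icc] at ht
      exact (hfderiv t ⟨ht.1.le, ht.2⟩).differentiableAt.differentiableWithinAt
    · intro t ht
      rw [interior_Icc] at ht
      rw [(hfderiv t ⟨ht.1.le, ht.2⟩).deriv]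
      have := hmono (left_mem_Ico.2 one_pos) ⟨ht.1.le, ht.2⟩ ht.1.le
      linarith
  have hfin := hanti (left_mem_Icc.2 zero_le_one) (right_mem_Icc.2 zero_le_one) zero_le_one
  simp only [hf, hh, zero_mul, add_zero, one_mul] at hfin
  have e1 : x + a = x' := by rw [ha]; ring
  have e2 : y + b = y' := by rw [hb]; ring
  have e3 : z + c = z' := by rw [hc]; ring
  rw [e1, e2, e3] at hfin
  linarith

end Pool.Agent.W120.VC
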